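import Pool.Agent.N103.TLCl

set_option autoImplicit false

/-!
# The strong monodromy conjecture at the origin: sums, products, Thom-Sebastiani sums with
# `h (f₀ + ∑ y_j f_j) ^ a`

We prove: every pole of the local topological zeta function of `F` at the origin is a root of the
local Bernstein-Sato polynomial of `F`, for the following germs `F`.

The building blocks are the polynomials `h(x₁, x₂) (f₀(x₁, x₂) + ∑ y_j f_j(x₁, x₂)) ^ a` with
arbitrary polynomials `h`, `f₀`, `f_j` and `a ≥ 1` (`FF h f a`): all polynomials of degree at most one
in all but two variables, their powers, and the products with polynomials in the two variables.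

Let `𝓘` and `𝓗` be the least classes of germs of ideals and of hypersurfaces at the origin with the
following properties.

* `𝓘` contains the principal ideals `(h (f₀ + ∑ y_j f_j) ^ a)`, and the following ideals for which the
  conjecture was known (`StrongLocal`): the unit ideal; the powers `(x ^ m)`; all non-zero ideals of
  `ℂ[x, y]`; the ideals of `ℂ[x₀, x₁, x₂]` generated by forms of the same degree, three of which are
  algebraically independent; the ideals generated by forms of the same degree without a common zero
  outside the origin; the principal ideals `(g)` with very general coefficients at the vertices of the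
  Newton polyhedron; it contains the principal ideals `(h)` and `(h ^ k)` with `h` in `𝓗`; and `𝓘` is
  closed under sums and products in disjoint sets of variables.
* `𝓗` contains the `h (f₀ + ∑ y_j f_j) ^ a` whose zeta function has at most a simple pole at `-1`, and
  plane curves and polynomials with very general coefficients with the same condition (`StrongHyp`);
  for `(f_j)` in `𝓘` and `g` in `𝓗`, `g(0) = 0`, it contains `∑ y_j f_j(x)` and `∑ y_j f_j(x) + g(z)`; for
  `h ∏_t (f_{t, j})_j ^ a_t` in `𝓘` it contains `h(x) ∏_t (∑_j y_{t, j} f_{t, j}(x)) ^ a_t`; and `𝓗` is closed
  under dropping variables which do not occur.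

For example, `g(z₁, z₂, w) + ∑ y_j f_j(x)` where `g` is of degree one in `w` (with at most a simple pole
at `-1`) and `f_j` are polynomials in two variables, and all polynomials which are obtained if this
construction is repeated.

The local zeta function of `F = h (f₀ + ∑ y_j f_j) ^ a` at the origin is described by `PointZeta`,
`GermZeta` (in `Pool.Agent.N103.ZDefs`); the other building blocks and the rules for the zeta
functions are described in the classes `StrongLocal`, `StrongHyp` and `TQ`.

The proof: for the new building blocks, `germLin_sf`: every pole is a root of every `b` with
`H(x, y) b(s) F ^ s = P(s) F ^ (s + 1)`, `H(0) ≠ 0` (if `b(s₀) ≠ 0` for the candidate pole `s₀` of an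
exceptional curve `E` over the origin of a resolution of `h` and of the ideal `(f₀, f_j)` in the plane,
the functional equation, pulled back to the neighbourhood of `E × {0}`, gives a rational solution of
a differential equation of first order on `E`, so that at most two points of `E` are special, and
the sum of the contributions of `E` is regular at `s₀`; see `Pool.Agent.N103`). The induction for
the operations is `tq_closure`: the poles are sums of poles, the roots of the `b`-functions are sums
of roots.
-/

namespace Pool.Agent.Results.MP_6163c8_ag.DegreeOneClosureLocal

open MvPolynomial Pool.Agent.W574.SM Pool.Agent.W574.RO Pool.Agent.H628R4.TP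
  Pool.Agent.Y229 Pool.Agent.Y230.TL Pool.Agent.R852.TL Pool.Agent.N103

/-- **The strong monodromy conjecture at the origin for the class generated by the polynomials
`h(x₁, x₂) (f₀(x₁, x₂) + ∑ y_j f_j(x₁, x₂)) ^ a`.** Let `TQ (GermAt StrongLocal) (GermHyp StrongHyp) c A Z`
be the classes of germs of ideals (`c = false`) and of hypersurfaces (`c = true`) at the origin with
their local topological zeta functions `Z` which are obtained from the germs of these polynomials,
from the ideals in `StrongLocal` and from the hypersurfaces in `StrongHyp` by sums and products in
disjoint sets of variables, powers, `h(x) ∏_t (∑_j y_{t, j} f_{t, j}(x)) ^ a_t`, and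
`∑ y_j f_j(x) + g(z)`. Let `F` be a polynomial such that the principal ideal `(F)` is in the class, with
the local topological zeta function `Z`, and let `b` satisfy a functional equation
`b(s) F ^ s = P(s) F ^ (s + 1)`, where `P(s)` is a differential operator with formal (in particular
convergent) power series at the origin as coefficients. Then every pole `s₀` of `Z` is a root of
`b`. -/
theorem result (σ : Type) (F : MvPolynomial σ ℂ) (Z : RatFunc ℂ)
    (h : TQ (GermAt StrongLocal) (GermHyp StrongHyp) false ⟨σ, Fin 1, fun _ => F⟩ Z)
    (b : Polynomial ℂ) (hb : IsLocalBFunction F b) (s₀ : ℂ) (hs : Z.denom.eval s₀ = 0) :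
    b.eval s₀ = 0 :=
  germ_strong F Z h b hb s₀ hs

end Pool.Agent.Results.MP_6163c8_ag.DegreeOneClosureLocal
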